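import Pool.Agent.K1H79.SX.Triv
import Pool.Agent.K1H52.SX.Ram
import Pool.Agent.K1H52.SX.DQ
import Pool.Agent.K1H21.SX.INV
import Pool.Agent.K1H21.SX.RAMC
import Pool.Agent.K1H26.SX.Amb
import Pool.Agent.K1H40.SX.C3
import Pool.Agent.K1H40.SX.Gal
import Pool.Agent.K1H40.SX.Ger

/-! # Assembly of the project SX (X4 as a hypothesis) -/

set_option autoImplicit false

namespace Pool.Agent.K1H79.SX

theorem ger_of (h : S_S3of) : S_GER :=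
  Pool.Agent.K1H40.SX.t_GER Pool.Agent.K1H52.SX.t_RAM
    (h Pool.Agent.K1H21.SX.t_INV _root_.K1H26.SX.t_AMB Pool.Agent.K1H52.SX.t_RAM)
    (Pool.Agent.K1H40.SX.t_C3 Pool.Agent.K1H21.SX.t_INV _root_.K1H26.SX.t_AMB Pool.Agent.K1H52.SX.t_RAM)
    Pool.Agent.K1H40.SX.t_GAL (Pool.Agent.K1H21.SX.t_RAMCof Pool.Agent.K1H52.SX.t_RAM)
    Pool.Agent.K1H52.SX.t_DQ t_TRIV

end Pool.Agent.K1H79.SX
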