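import Pool.Agent.K1H79.SX.Stm
import Pool.Agent.K1H79.GE.StmA

/-! # Small generators, and the subfield generated by two subfields (helper79) -/

set_option autoImplicit false

namespace Pool.Agent.K1H79.SX

open NumberField NumberField.InfinitePlace NumberField.mixedEmbedding
open scoped Classical NNReal ENNReal IntermediateField nonZeroDivisors

theorem mink_le (F : Type) [Field F] [NumberField F] :
    minkowskiBound F ↑1 ≤
      ((NNReal.sqrt ‖discr F‖₊ * 2 ^ Module.finrank ℚ F : ℝ≥0) : ℝ≥0∞) := by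
  rw [minkowskiBound, volume_fundamentalDomain_fractionalIdealLatticeBasis,
    Units.val_one, FractionalIdeal.absNorm_one, Rat.cast_one,
    ENNReal.ofReal_one, one_mul, mixedEmbedding.finrank, volume_fundamentalDomain_latticeBasis,
    ENNReal.coe_mul, ENNReal.coe_pow, ENNReal.coe_ofNat]
  gcongr
  exact mul_le_of_le_one_left (by positivity) (pow_le_one₀ (by positivity) (by simp))

/-- a small primitive element -/
theorem prim_small (F : Type) [Field F] [NumberField F] :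
    ∃ a : 𝓞 F, ℚ⟮(a : F)⟯ = ⊤ ∧
      ∀ w : InfinitePlace F, w (a : F) ≤ (2 ^ Module.finrank ℚ F + 2) * √|(discr F : ℝ)| := by
  obtain ⟨B, hB⟩ : ∃ B : ℝ≥0, B = NNReal.sqrt ‖discr F‖₊ * 2 ^ Module.finrank ℚ F + 1 := ⟨_, rfl⟩
  have h1 : minkowskiBound F ↑1 < (B : ℝ≥0∞) := by
    refine lt_of_le_of_lt (mink_le F) ?_
    rw [ENNReal.coe_lt_coe, hB]
    exact lt_add_one _
  have hd : (NNReal.sqrt ‖discr F‖₊ : ℝ) = √|(discr F : ℝ)| := by
    rw [Real.coe_sqrt, coe_nnnorm, Int.norm_eq_abs]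
  have hD1 : (1 : ℝ) ≤ √|(discr F : ℝ)| := by
    apply Real.one_le_sqrt.2
    have := Int.one_le_abs (discr_ne_zero F)
    exact_mod_cast this
  have hBr : (B : ℝ) = √|(discr F : ℝ)| * 2 ^ Module.finrank ℚ F + 1 := by
    rw [hB, NNReal.coe_add, NNReal.coe_mul, hd]
    norm_num
  have hB1 : (1 : ℝ) ≤ B := by
    rw [hBr]
    have : 0 ≤ √|(discr F : ℝ)| * 2 ^ Module.finrank ℚ F := by positivity
    linarith
  have hB2 : 1 + (B : ℝ) ≤ (2 ^ Module.finrank ℚ F + 2) * √|(discr F : ℝ)| := by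
    rw [hBr]
    nlinarith
  obtain ⟨w₀⟩ : Nonempty (InfinitePlace F) := inferInstance
  rcases isReal_or_isComplex w₀ with hw | hw
  · obtain ⟨a, ha, hb⟩ := exists_primitive_element_lt_of_isReal F hw (B := B) (by
      refine lt_of_lt_of_le h1 ?_
      calc (B : ℝ≥0∞) = 1 * B := (one_mul _).symm
        _ ≤ convexBodyLTFactor F * B := by
            gcongr
            exact mod_cast one_le_convexBodyLTFactor F)
    refine ⟨a, ha, fun w => ?_⟩
    have h2 := (hb w).le
    have h3 : max (B : ℝ) 1 = B := max_eq_left hB1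
    have h4 : ((max B 1 : ℝ≥0) : ℝ) = B := by
      rw [NNReal.coe_max, NNReal.coe_one, h3]
    have h5 : w (a : F) ≤ B := by
      rw [h4] at h2
      exact h2
    linarith
  · obtain ⟨a, ha, hb⟩ := exists_primitive_element_lt_of_isComplex F hw (B := B) (by
      refine lt_of_lt_of_le h1 ?_
      calc (B : ℝ≥0∞) = 1 * B := (one_mul _).symm
        _ ≤ convexBodyLT'Factor F * B := by
            gcongr
            exact mod_cast one_le_convexBodyLT'Factor F)
    refine ⟨a, ha, fun w => ?_⟩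
    have h2 := (hb w).le
    have h3 : √(1 + (B : ℝ) ^ 2) ≤ 1 + B := by
      rw [Real.sqrt_le_left (by linarith)]
      nlinarith
    linarith

/-- a field embedded in `K`, generated by a small integer, lies in `Hs K H` -/
theorem mem_Hs {A K : Type} [Field A] [NumberField A] [Field K] [NumberField K] [Algebra A K] {H : ℝ}
    {a : 𝓞 A} (ha : ℚ⟮(a : A)⟯ = ⊤) (hH : ∀ w : InfinitePlace A, w (a : A) ≤ H) (x : A) :
    algebraMap A K x ∈ GE.Hs K H := by
  obtain ⟨φ, hφ⟩ : ∃ φ : A →ₐ[ℚ] K, ∀ y, φ y = algebraMap A K y := ⟨(algebraMap A K).toRatAlgHom, fun _ => rfl⟩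
  have h1 : ℚ⟮(a : A)⟯ ≤ (GE.Hs K H).comap φ := by
    rw [IntermediateField.adjoin_simple_le_iff]
    change φ (a : A) ∈ GE.Hs K H
    rw [hφ]
    apply IntermediateField.subset_adjoin
    refine ⟨?_, ?_⟩
    · exact map_isIntegral_int (algebraMap A K) a.isIntegral_coe
    · intro w
      exact hH (w.comap (algebraMap A K))
  rw [ha] at h1
  have h2 := h1 (IntermediateField.mem_top (x := x))
  change φ x ∈ GE.Hs K H at h2
  rwa [hφ] at h2

/-- the field generated by two subfields has small discriminant -/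
theorem comp_small (hSUB : GE.S_SUB) (m : ℕ) : ∃ C : ℝ, 1 ≤ C ∧
    ∀ (A K : Type) [Field A] [NumberField A] [Field K] [NumberField K] [Algebra A K],
      Module.finrank ℚ K = m → ∀ F : IntermediateField ℚ K, ∃ E : IntermediateField ℚ K,
        F ≤ E ∧ (∀ x : A, algebraMap A K x ∈ E) ∧
        |(discr E : ℝ)| ≤ C * (|(discr F : ℝ)| * |(discr A : ℝ)|) ^ C := by
  obtain ⟨C0, hC0, h0⟩ := hSUB m
  have hP : (1 : ℝ) ≤ 2 ^ m + 2 := by
    have : (0 : ℝ) ≤ 2 ^ m := by positivity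
    linarith
  refine ⟨max 1 (max C0 (C0 * (2 ^ m + 2) ^ C0)), le_max_left _ _, ?_⟩
  intro A K _ _ _ _ _ hK F
  have hdF : 1 ≤ |(discr F : ℝ)| := by
    have := Int.one_le_abs (discr_ne_zero F)
    exact_mod_cast this
  have hdA : 1 ≤ |(discr A : ℝ)| := by
    have := Int.one_le_abs (discr_ne_zero A)
    exact_mod_cast this
  obtain ⟨dF, hdF'⟩ : ∃ d : ℝ, d = |(discr F : ℝ)| := ⟨_, rfl⟩
  obtain ⟨dA, hdA'⟩ : ∃ d : ℝ, d = |(discr A : ℝ)| := ⟨_, rfl⟩
  have hFm : Module.finrank ℚ F ≤ m := by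
    rw [← hK, ← Module.finrank_mul_finrank ℚ F K]
    exact Nat.le_mul_of_pos_right _ Module.finrank_pos
  have hfin : FiniteDimensional A K := by
    have : IsScalarTower ℚ A K := inferInstance
    exact FiniteDimensional.right ℚ A K
  have hAm : Module.finrank ℚ A ≤ m := by
    rw [← hK, ← Module.finrank_mul_finrank ℚ A K]
    exact Nat.le_mul_of_pos_right _ Module.finrank_pos
  obtain ⟨a, ha, ha'⟩ := prim_small F
  obtain ⟨b, hb, hb'⟩ := prim_small A
  rw [← hdF'] at ha' hdF ⊢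
  rw [← hdA'] at hb' hdA ⊢
  have hprod : 1 ≤ dF * dA := one_le_mul_of_one_le_of_one_le hdF hdA
  have hs1 : 1 ≤ √(dF * dA) := Real.one_le_sqrt.2 hprod
  obtain ⟨H, hH⟩ : ∃ H : ℝ, H = (2 ^ m + 2) * √(dF * dA) := ⟨_, rfl⟩
  have hH1 : 1 ≤ H := by rw [hH]; exact one_le_mul_of_one_le_of_one_le hP hs1
  have haH : ∀ w : InfinitePlace F, w (a : F) ≤ H := by
    intro w
    refine (ha' w).trans ?_
    rw [hH]
    apply mul_le_mul _ _ (Real.sqrt_nonneg _) (by linarith)
    · have : (2 : ℝ) ^ Module.finrank ℚ F ≤ 2 ^ m := pow_le_pow_right₀ (by norm_num) hFm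
      linarith
    · apply Real.sqrt_le_sqrt
      nlinarith
  have hbH : ∀ w : InfinitePlace A, w (b : A) ≤ H := by
    intro w
    refine (hb' w).trans ?_
    rw [hH]
    apply mul_le_mul _ _ (Real.sqrt_nonneg _) (by linarith)
    · have : (2 : ℝ) ^ Module.finrank ℚ A ≤ 2 ^ m := pow_le_pow_right₀ (by norm_num) hAm
      linarith
    · apply Real.sqrt_le_sqrt
      nlinarith
  refine ⟨GE.Hs K H, ?_, ?_, ?_⟩
  · intro x hx
    exact mem_Hs (K := K) ha haH (⟨x, hx⟩ : F)
  · intro x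
    exact mem_Hs hb hbH x
  · refine (h0 K hK H hH1).trans ?_
    obtain ⟨C1, hC1⟩ : ∃ C1 : ℝ, C1 = max 1 (max C0 (C0 * (2 ^ m + 2) ^ C0)) := ⟨_, rfl⟩
    have hC2 : C0 ≤ C1 := by rw [hC1]; exact (le_max_left _ _).trans (le_max_right _ _)
    have hC3 : C0 * (2 ^ m + 2) ^ C0 ≤ C1 := by rw [hC1]; exact (le_max_right _ _).trans (le_max_right _ _)
    rw [← hC1, hH, Real.mul_rpow (by linarith) (Real.sqrt_nonneg _), ← mul_assoc]
    apply mul_le_mul hC3 _ (by positivity) (by linarith [hC0])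
    calc √(dF * dA) ^ C0 ≤ (dF * dA) ^ C0 := by
          apply Real.rpow_le_rpow (Real.sqrt_nonneg _) _ hC0.le
          rw [Real.sqrt_le_left (by linarith)]
          nlinarith
      _ ≤ (dF * dA) ^ C1 := Real.rpow_le_rpow_of_exponent_le hprod hC2

end Pool.Agent.K1H79.SX
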