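import Pool.Agent.K1H79.SX.All
import Pool.Agent.K1H79.Q4.Quart
import Pool.Agent.K1H79.RF.Thm

/-! # The results of the project SX (from `S_GER`) -/

set_option autoImplicit false

namespace Pool.Agent.K1H79.SX

open NumberField

/-- fields of even degree without `√-3` -/
def S_EVEN : Prop := ∀ n : ℕ, Even n → 2 ≤ n → ∀ η : ℝ, 0 < η → ∃ δ C : ℝ, 0 < δ ∧ 0 < C ∧
  ∀ (L : Type) [Field L] [NumberField L], Module.finrank ℚ L = n → GE.NoOm L →
    (∀ F : IntermediateField ℚ L, Odd (Module.finrank F L) →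
      |(discr L : ℝ)| ^ η ≤ |(discr F : ℝ)| ∨ (Module.finrank F L = 3 ∧ ∃ b : ℕ, Module.finrank ℚ F = 2 ^ b)) →
    (h3 L : ℝ) ≤ C * |(discr L : ℝ)| ^ (1 / 2 - δ : ℝ)

theorem one_le_D (L : Type) [Field L] [NumberField L] : 1 ≤ |(discr L : ℝ)| := by
  have h0 : discr L ≠ 0 := discr_ne_zero L
  have : (1 : ℤ) ≤ |discr L| := Int.one_le_abs h0
  exact_mod_cast this

/-- the 3-torsion of a quadratic extension `F'` of a field `F` of degree `2 ^ b`, where `F'` may be `F(√-3)` -/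
theorem quad_case (b : ℕ) : ∃ δ C : ℝ, 0 < δ ∧ δ ≤ 1 / 2 ∧ 0 < C ∧
    ∀ (F F' : Type) [Field F] [NumberField F] [Field F'] [NumberField F'] [Algebra F F'],
      Module.finrank ℚ F = 2 ^ b → Module.finrank F F' = 2 → GE.NoOm F →
      (h3 F' : ℝ) ≤ C * (|(discr F' : ℝ)| ^ (1 / 2 - δ : ℝ) + |(discr F : ℝ)| ^ 2) := by
  obtain ⟨δ, C1, hδ, hC1, h1⟩ := GE.two (b + 1) (by omega)
  obtain ⟨C2, hC2, h2⟩ := t_TRIV (2 ^ (b + 1))
  refine ⟨min δ (1 / 2), max C1 (C2 * 3 ^ (2 ^ b)), by positivity, min_le_right _ _, by positivity, ?_⟩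
  intro F F' _ _ _ _ _ hF hF' hno
  have hdeg : Module.finrank ℚ F' = 2 ^ (b + 1) := by
    rw [← Module.finrank_mul_finrank ℚ F F', hF, hF', pow_succ]
  have hD1 := one_le_D F'
  have hd1 := one_le_D F
  have hp : 0 ≤ |(discr F' : ℝ)| ^ (1 / 2 - min δ (1 / 2) : ℝ) := by positivity
  by_cases hno' : GE.NoOm F'
  · calc (h3 F' : ℝ) ≤ C1 * |(discr F' : ℝ)| ^ (1 / 2 - δ : ℝ) := h1 F' hdeg hno'
      _ ≤ max C1 (C2 * 3 ^ (2 ^ b)) * |(discr F' : ℝ)| ^ (1 / 2 - min δ (1 / 2) : ℝ) := by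
          apply mul_le_mul (le_max_left _ _) _ (by positivity) (by positivity)
          apply Real.rpow_le_rpow_of_exponent_le hD1
          have := min_le_left δ (1 / 2)
          linarith
      _ ≤ _ := by
          apply mul_le_mul_of_nonneg_left _ (by positivity)
          have : 0 ≤ |(discr F : ℝ)| ^ 2 := by positivity
          linarith
  · have hz : ∃ z : F', z ^ 2 + z + 1 = 0 := by
      unfold GE.NoOm at hno'
      push Not at hno'
      exact hno'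
    obtain ⟨ω, hω⟩ := hz
    have h5 := (RF.t_DISC F F' hF' ω hω hno).2
    rw [hF] at h5
    calc (h3 F' : ℝ) ≤ C2 * |(discr F' : ℝ)| := h2 F' hdeg
      _ ≤ C2 * (3 ^ (2 ^ b) * |(discr F : ℝ)| ^ 2) := mul_le_mul_of_nonneg_left h5 hC2.le
      _ = C2 * 3 ^ (2 ^ b) * |(discr F : ℝ)| ^ 2 := by ring
      _ ≤ max C1 (C2 * 3 ^ (2 ^ b)) * |(discr F : ℝ)| ^ 2 :=
          mul_le_mul_of_nonneg_right (le_max_right _ _) (by positivity)
      _ ≤ _ := by
          apply mul_le_mul_of_nonneg_left _ (by positivity)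
          linarith [hp]

/-- numerical lemma -/
theorem num_case {D d C δ ε η : ℝ} (hD : 1 ≤ D) (hd1 : 1 ≤ d) (hd : d ≤ D ^ η) (hC : 0 < C)
    (hδ : 0 < δ) (hδ2 : δ ≤ 1 / 2) (hη : 0 < η) (h1 : ε ≤ δ / 4) (h2 : (2 * C + 2) * η ≤ δ / 4) :
    C * D ^ ε * d ^ C ≤ C * D ^ (1 / 2 - δ / 2) ∧ ∀ E : ℝ, 1 ≤ E → E ≤ C * d ^ C * D →
    C * D ^ ε * d ^ C * (E ^ (1 / 2 - δ) + d ^ 2) ≤ C * (C ^ (1 / 2 - δ) + 1) * D ^ (1 / 2 - δ / 2) := by
  have hD0 : 0 < D := by linarith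
  have hd0 : 0 < d := by linarith
  have hdC : d ^ C ≤ D ^ (η * C) := by
    rw [Real.rpow_mul hD0.le]
    exact Real.rpow_le_rpow hd0.le hd hC.le
  have hd2 : d ^ 2 ≤ D ^ (η * 2) := by
    rw [Real.rpow_mul hD0.le, Real.rpow_two]
    exact pow_le_pow_left₀ hd0.le hd 2
  have hηC : 0 < η * C := by positivity
  have hE2 : ∀ E : ℝ, 1 ≤ E → E ≤ C * d ^ C * D →
      E ^ (1 / 2 - δ) ≤ C ^ (1 / 2 - δ) * D ^ (η * C + (1 / 2 - δ)) := by
    intro E hE1 hE
    calc E ^ (1 / 2 - δ) ≤ (C * D ^ (η * C) * D) ^ (1 / 2 - δ) := by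
          apply Real.rpow_le_rpow (by linarith) _ (by linarith)
          refine hE.trans ?_
          apply mul_le_mul_of_nonneg_right _ hD0.le
          exact mul_le_mul_of_nonneg_left hdC hC.le
      _ = C ^ (1 / 2 - δ) * (D ^ (η * C) * D) ^ (1 / 2 - δ) := by
          rw [mul_assoc, Real.mul_rpow hC.le (by positivity)]
      _ = C ^ (1 / 2 - δ) * D ^ ((η * C + 1) * (1 / 2 - δ)) := by
          congr 1
          rw [Real.rpow_mul hD0.le (η * C + 1) (1 / 2 - δ), Real.rpow_add hD0, Real.rpow_one]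
      _ ≤ C ^ (1 / 2 - δ) * D ^ (η * C + (1 / 2 - δ)) := by
          apply mul_le_mul_of_nonneg_left _ (by positivity)
          apply Real.rpow_le_rpow_of_exponent_le hD
          nlinarith
  constructor
  · calc C * D ^ ε * d ^ C ≤ C * D ^ ε * D ^ (η * C) := mul_le_mul_of_nonneg_left hdC (by positivity)
      _ = C * D ^ (ε + η * C) := by rw [mul_assoc, ← Real.rpow_add hD0]
      _ ≤ C * D ^ (1 / 2 - δ / 2) := by
          apply mul_le_mul_of_nonneg_left _ hC.le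
          apply Real.rpow_le_rpow_of_exponent_le hD
          nlinarith
  · intro E hE1 hE
    calc C * D ^ ε * d ^ C * (E ^ (1 / 2 - δ) + d ^ 2)
        ≤ C * D ^ ε * D ^ (η * C) * (C ^ (1 / 2 - δ) * D ^ (η * C + (1 / 2 - δ)) + D ^ (η * 2)) := by
          apply mul_le_mul _ _ (by positivity) (by positivity)
          · exact mul_le_mul_of_nonneg_left hdC (by positivity)
          · exact add_le_add (hE2 E hE1 hE) hd2
      _ = C * (C ^ (1 / 2 - δ) * D ^ (ε + η * C + (η * C + (1 / 2 - δ))) + D ^ (ε + η * C + η * 2)) := by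
          rw [Real.rpow_add hD0 (ε + η * C), Real.rpow_add hD0 (ε + η * C), Real.rpow_add hD0 ε]
          ring
      _ ≤ C * (C ^ (1 / 2 - δ) * D ^ (1 / 2 - δ / 2) + D ^ (1 / 2 - δ / 2)) := by
          apply mul_le_mul_of_nonneg_left _ hC.le
          apply add_le_add
          · apply mul_le_mul_of_nonneg_left _ (by positivity)
            apply Real.rpow_le_rpow_of_exponent_le hD
            nlinarith
          · apply Real.rpow_le_rpow_of_exponent_le hD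
            nlinarith
      _ = C * (C ^ (1 / 2 - δ) + 1) * D ^ (1 / 2 - δ / 2) := by ring

theorem noOm_sub {L : Type} [Field L] (h : GE.NoOm L) {F : Type} [Field F] [Algebra F L] : GE.NoOm F := by
  intro z hz
  apply h (algebraMap F L z)
  rw [← map_pow, ← map_add]
  have : algebraMap F L (z ^ 2 + z) + 1 = algebraMap F L (z ^ 2 + z + 1) := by
    rw [map_add (algebraMap F L) (z ^ 2 + z) 1, map_one]
  rw [this, hz, map_zero]

theorem even_of (hG : S_GER) : S_EVEN := by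
  intro n hn hn2 η hη
  by_cases hb : ∃ b : ℕ, n = 3 * 2 ^ b
  · obtain ⟨b, hb⟩ := hb
    obtain ⟨δ, C2, hδ, hδ2, hC2, h2⟩ := quad_case b
    obtain ⟨C3, hC3, h3'⟩ := hG (2 ^ b) (δ / 4) (by positivity)
    obtain ⟨η', hη'⟩ : ∃ η' : ℝ, η' = min η (δ / (4 * (2 * C3 + 2))) := ⟨_, rfl⟩
    have hη0 : 0 < η' := by rw [hη']; positivity
    have hη1 : (2 * C3 + 2) * η' ≤ δ / 4 := by
      have h4 : η' ≤ δ / (4 * (2 * C3 + 2)) := by rw [hη']; exact min_le_right _ _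
      have h5 : (2 * C3 + 2) * (δ / (4 * (2 * C3 + 2))) = δ / 4 := by
        field_simp
      calc (2 * C3 + 2) * η' ≤ (2 * C3 + 2) * (δ / (4 * (2 * C3 + 2))) :=
            mul_le_mul_of_nonneg_left h4 (by positivity)
        _ = δ / 4 := h5
    have hη2 : η' ≤ η := by rw [hη']; exact min_le_left _ _
    obtain ⟨δ4, C4, hδ4, hC4, h4⟩ := GE.ge n hn hn2 η' hη0
    refine ⟨min δ4 (δ / 2), max C4 (max C3 (C3 * (C3 ^ (1 / 2 - δ) + 1) * C2)), by positivity,
      lt_max_of_lt_left hC4, ?_⟩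
    intro L _ _ hL hno hsub
    have hD1 := one_le_D L
    have hfin : ∀ (δ' C' : ℝ), 0 < C' → min δ4 (δ / 2) ≤ δ' →
        C' ≤ max C4 (max C3 (C3 * (C3 ^ (1 / 2 - δ) + 1) * C2)) →
        C' * |(discr L : ℝ)| ^ (1 / 2 - δ' : ℝ) ≤
          max C4 (max C3 (C3 * (C3 ^ (1 / 2 - δ) + 1) * C2)) *
            |(discr L : ℝ)| ^ (1 / 2 - min δ4 (δ / 2) : ℝ) := by
      intro δ' C' hC' hδ' hC''
      apply mul_le_mul hC'' _ (by positivity) (by positivity)
      apply Real.rpow_le_rpow_of_exponent_le hD1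
      linarith
    by_cases hall : ∀ F : IntermediateField ℚ L, Odd (Module.finrank F L) →
        |(discr L : ℝ)| ^ η' ≤ |(discr F : ℝ)|
    · exact (h4 L hL hno hall).trans (hfin δ4 C4 hC4 (min_le_left _ _) (le_max_left _ _))
    · push Not at hall
      obtain ⟨F, hF1, hF2⟩ := hall
      have h5 : |(discr L : ℝ)| ^ η' ≤ |(discr L : ℝ)| ^ η := Real.rpow_le_rpow_of_exponent_le hD1 hη2
      obtain h6 | ⟨h6, b', hb'⟩ := hsub F hF1
      · linarith
      have hbb : 2 ^ b' = 2 ^ b := by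
        have h7 : Module.finrank ℚ F * Module.finrank F L = n := by
          rw [Module.finrank_mul_finrank, hL]
        rw [h6, hb', hb] at h7
        omega
      rw [hbb] at hb'
      have hd1 := one_le_D F
      obtain h8 | ⟨F', _, _, _, h8, h9, h10⟩ := h3' F L hb' h6
      · have h11 := (num_case hD1 hd1 hF2.le hC3 hδ hδ2 hη0 le_rfl hη1).1
        exact h8.trans (h11.trans (hfin (δ / 2) C3 hC3 (min_le_right _ _)
          ((le_max_left _ _).trans (le_max_right _ _))))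
      · have h11 := (num_case hD1 hd1 hF2.le hC3 hδ hδ2 hη0 le_rfl hη1).2 _ (one_le_D F') h9
        have h12 := h2 F F' hb' h8 (noOm_sub hno)
        have h13 : (h3 L : ℝ) ≤ C3 * (C3 ^ (1 / 2 - δ) + 1) * C2 * |(discr L : ℝ)| ^ (1 / 2 - δ / 2) := by
          calc (h3 L : ℝ) ≤ C3 * |(discr L : ℝ)| ^ (δ / 4) * |(discr F : ℝ)| ^ C3 * h3 F' := h10
            _ ≤ C3 * |(discr L : ℝ)| ^ (δ / 4) * |(discr F : ℝ)| ^ C3 *
                (C2 * (|(discr F' : ℝ)| ^ (1 / 2 - δ : ℝ) + |(discr F : ℝ)| ^ 2)) :=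
                mul_le_mul_of_nonneg_left h12 (by positivity)
            _ = C3 * |(discr L : ℝ)| ^ (δ / 4) * |(discr F : ℝ)| ^ C3 *
                (|(discr F' : ℝ)| ^ (1 / 2 - δ : ℝ) + |(discr F : ℝ)| ^ 2) * C2 := by ring
            _ ≤ C3 * (C3 ^ (1 / 2 - δ) + 1) * |(discr L : ℝ)| ^ (1 / 2 - δ / 2) * C2 :=
                mul_le_mul_of_nonneg_right h11 hC2.le
            _ = _ := by ring
        exact h13.trans (hfin (δ / 2) _ (by positivity) (min_le_right _ _)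
          ((le_max_right _ _).trans (le_max_right _ _)))
  · obtain ⟨δ4, C4, hδ4, hC4, h4⟩ := GE.ge n hn hn2 η hη
    refine ⟨δ4, C4, hδ4, hC4, ?_⟩
    intro L _ _ hL hno hsub
    apply h4 L hL hno
    intro F hF
    obtain h6 | ⟨h6, b', hb'⟩ := hsub F hF
    · exact h6
    · exfalso
      apply hb
      refine ⟨b', ?_⟩
      have h7 : Module.finrank ℚ F * Module.finrank F L = n := by
        rw [Module.finrank_mul_finrank, hL]
      rw [h6, hb'] at h7
      omega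

theorem two_dvd_of {F : Type} [Field F] [NumberField F] {z : F} (hz : z ^ 2 + z + 1 = 0) :
    2 ∣ Module.finrank ℚ F := by
  have hi : IsIntegral ℚ z := Algebra.IsIntegral.isIntegral z
  have h1 := minpoly.degree_dvd hi
  have hm : (Polynomial.X ^ 2 + Polynomial.X + 1 : Polynomial ℚ).Monic := by monicity!
  have hd : (Polynomial.X ^ 2 + Polynomial.X + 1 : Polynomial ℚ).natDegree = 2 := by compute_degree!
  have h2 : minpoly ℚ z ∣ Polynomial.X ^ 2 + Polynomial.X + 1 := by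
    apply minpoly.dvd
    simp [hz]
  have h3 : (minpoly ℚ z).natDegree ≤ 2 := by
    rw [← hd]
    exact Polynomial.natDegree_le_of_dvd h2 hm.ne_zero
  have h4 : 0 < (minpoly ℚ z).natDegree := minpoly.natDegree_pos hi
  have h5 : (minpoly ℚ z).natDegree ≠ 1 := by
    intro h5
    obtain ⟨q, hq⟩ := minpoly.natDegree_eq_one_iff.1 h5
    rw [← hq] at hz
    have h6 : algebraMap ℚ F (q ^ 2 + q + 1) = 0 := by
      rw [map_add, map_add, map_pow, map_one]
      exact hz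
    have h7 : q ^ 2 + q + 1 = 0 := (map_eq_zero (algebraMap ℚ F)).1 h6
    nlinarith [sq_nonneg (q + 1 / 2)]
  have h6 : (minpoly ℚ z).natDegree = 2 := by omega
  rwa [h6] at h1

/-- the sextic fields which contain `√-3` -/
theorem sextic_om (hG : S_GER) : ∃ δ C : ℝ, 0 < δ ∧ 0 < C ∧ ∀ (L : Type) [Field L] [NumberField L],
    Module.finrank ℚ L = 6 → (∃ z : L, z ^ 2 + z + 1 = 0) →
    (h3 L : ℝ) ≤ C * |(discr L : ℝ)| ^ (1 / 2 - δ : ℝ) := by
  obtain ⟨δ, C1, hδ, hδ2, hC1, h1⟩ := Q4.quart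
  obtain ⟨C2, hC2, h2⟩ := t_TRIV 6
  obtain ⟨C3, hC3, h3'⟩ := hG 2 (δ / 2) (by positivity)
  obtain ⟨C4, hC4, h4⟩ := Pool.Agent.K1H39.GE.t_SUB 6
  refine ⟨δ / 2, C2 * C4 + C3 * C4 ^ C3 + C3 * C4 ^ C3 * (C1 * (C3 * C4 ^ C3) ^ (1 / 2 - δ : ℝ)),
    by positivity, by positivity, ?_⟩
  intro L _ _ hL ⟨ω, hω⟩
  have hD1 := one_le_D L
  have hD0 : 0 < |(discr L : ℝ)| := by linarith
  have hp1 : 1 ≤ |(discr L : ℝ)| ^ (1 / 2 - δ / 2 : ℝ) := Real.one_le_rpow hD1 (by linarith)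
  have hd' := h4 L hL 1 le_rfl
  rw [Real.one_rpow, mul_one] at hd'
  obtain ⟨F, hF, hd⟩ : ∃ F : IntermediateField ℚ L, F = GE.Hs L 1 ∧ |(discr F : ℝ)| ≤ C4 :=
    ⟨_, rfl, hd'⟩
  have hint : IsIntegral ℤ ω := by
    refine ⟨Polynomial.X ^ 2 + Polynomial.X + 1, ?_, ?_⟩
    · monicity!
    · simp [hω]
  have hω3 : ω ^ 3 = 1 := by linear_combination (ω - 1) * hω
  have hmem : ω ∈ F := by
    rw [hF]
    apply IntermediateField.subset_adjoin
    refine ⟨hint, ?_⟩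
    intro w
    have h5 : w ω ^ 3 = 1 := by rw [← map_pow, hω3, map_one]
    have h6 : w ω = 1 := (pow_eq_one_iff_of_nonneg (apply_nonneg w ω) (by norm_num)).1 h5
    exact h6.le
  have hdeg : Module.finrank ℚ F * Module.finrank F L = 6 := by
    rw [Module.finrank_mul_finrank, hL]
  have hev : 2 ∣ Module.finrank ℚ F := two_dvd_of (z := (⟨ω, hmem⟩ : F)) (Subtype.ext hω)
  have hT1 : 0 < C2 * C4 := by positivity
  have hT2 : 0 < C3 * C4 ^ C3 := by positivity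
  have hT3 : 0 < C3 * C4 ^ C3 * (C1 * (C3 * C4 ^ C3) ^ (1 / 2 - δ : ℝ)) := by positivity
  obtain ⟨k, hk⟩ := hev
  have hk3 : k * Module.finrank F L = 3 := by
    rw [hk] at hdeg
    have : 2 * (k * Module.finrank F L) = 6 := by rw [← hdeg]; ring
    omega
  have hk4 : k ∣ 3 := ⟨_, hk3.symm⟩
  have hpow1 : ∀ C' : ℝ, 0 < C' →
      C' ≤ C2 * C4 + C3 * C4 ^ C3 + C3 * C4 ^ C3 * (C1 * (C3 * C4 ^ C3) ^ (1 / 2 - δ : ℝ)) →
      C' * |(discr L : ℝ)| ^ (1 / 2 - δ / 2 : ℝ) ≤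
        (C2 * C4 + C3 * C4 ^ C3 + C3 * C4 ^ C3 * (C1 * (C3 * C4 ^ C3) ^ (1 / 2 - δ : ℝ))) *
          |(discr L : ℝ)| ^ (1 / 2 - δ / 2 : ℝ) := by
    intro C' _ h
    exact mul_le_mul_of_nonneg_right h (by positivity)
  obtain hk5 | hk5 := (Nat.dvd_prime Nat.prime_three).1 hk4
  · -- `F` is quadratic
    rw [hk5] at hk hk3
    have hF2 : Module.finrank ℚ F = 2 := by omega
    have hF3 : Module.finrank F L = 3 := by omega
    have hdC : |(discr F : ℝ)| ^ C3 ≤ C4 ^ C3 :=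
      Real.rpow_le_rpow (abs_nonneg _) hd hC3.le
    obtain h8 | ⟨F', _, _, _, h8, h9, h10⟩ := h3' F L hF2 hF3
    · calc (h3 L : ℝ) ≤ C3 * |(discr L : ℝ)| ^ (δ / 2) * |(discr F : ℝ)| ^ C3 := h8
        _ ≤ C3 * |(discr L : ℝ)| ^ (1 / 2 - δ / 2) * C4 ^ C3 := by
            apply mul_le_mul _ hdC (by positivity) (by positivity)
            apply mul_le_mul_of_nonneg_left _ hC3.le
            apply Real.rpow_le_rpow_of_exponent_le hD1
            linarith
        _ = C3 * C4 ^ C3 * |(discr L : ℝ)| ^ (1 / 2 - δ / 2) := by ring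
        _ ≤ _ := hpow1 _ hT2 (by linarith)
    · have hdeg4 : Module.finrank ℚ F' = 4 := by
        rw [← Module.finrank_mul_finrank ℚ F F', hF2, h8]
      have h11 := h1 F' hdeg4
      have h12 : |(discr F' : ℝ)| ^ (1 / 2 - δ : ℝ) ≤
          (C3 * C4 ^ C3) ^ (1 / 2 - δ : ℝ) * |(discr L : ℝ)| ^ (1 / 2 - δ : ℝ) := by
        rw [← Real.mul_rpow hT2.le hD0.le]
        apply Real.rpow_le_rpow (abs_nonneg _) _ (by linarith)
        refine h9.trans ?_
        apply mul_le_mul_of_nonneg_right _ hD0.le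
        exact mul_le_mul_of_nonneg_left hdC hC3.le
      calc (h3 L : ℝ) ≤ C3 * |(discr L : ℝ)| ^ (δ / 2) * |(discr F : ℝ)| ^ C3 * h3 F' := h10
        _ ≤ C3 * |(discr L : ℝ)| ^ (δ / 2) * C4 ^ C3 *
            (C1 * ((C3 * C4 ^ C3) ^ (1 / 2 - δ : ℝ) * |(discr L : ℝ)| ^ (1 / 2 - δ : ℝ))) := by
            apply mul_le_mul _ _ (by positivity) (by positivity)
            · exact mul_le_mul_of_nonneg_left hdC (by positivity)
            · exact h11.trans (mul_le_mul_of_nonneg_left h12 hC1.le)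
        _ = C3 * C4 ^ C3 * (C1 * (C3 * C4 ^ C3) ^ (1 / 2 - δ : ℝ)) *
            (|(discr L : ℝ)| ^ (δ / 2) * |(discr L : ℝ)| ^ (1 / 2 - δ : ℝ)) := by ring
        _ = C3 * C4 ^ C3 * (C1 * (C3 * C4 ^ C3) ^ (1 / 2 - δ : ℝ)) *
            |(discr L : ℝ)| ^ (1 / 2 - δ / 2 : ℝ) := by
            rw [← Real.rpow_add hD0]
            congr 2
            ring
        _ ≤ _ := hpow1 _ hT3 (by linarith)
  · -- `F = L`
    rw [hk5] at hk3
    have hF3 : Module.finrank F L = 1 := by omega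
    have h5 : F = ⊤ := by
      rw [← IntermediateField.finrank_eq_one_iff_eq_top]
      exact hF3
    rw [h5, GE.discr_top] at hd
    calc (h3 L : ℝ) ≤ C2 * |(discr L : ℝ)| := h2 L hL
      _ ≤ C2 * C4 := mul_le_mul_of_nonneg_left hd hC2.le
      _ ≤ C2 * C4 * |(discr L : ℝ)| ^ (1 / 2 - δ / 2 : ℝ) := le_mul_of_one_le_right hT1.le hp1
      _ ≤ _ := hpow1 _ hT1 (by linarith)

/-- degrees `2 ^ a` and `3 * 2 ^ a`, fields without `√-3` -/
theorem two_three_of (hG : S_GER) : ∀ n : ℕ, (∃ a : ℕ, 1 ≤ a ∧ (n = 2 ^ a ∨ n = 3 * 2 ^ a)) →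
    ∃ δ C : ℝ, 0 < δ ∧ 0 < C ∧ ∀ (L : Type) [Field L] [NumberField L],
      Module.finrank ℚ L = n → GE.NoOm L → (h3 L : ℝ) ≤ C * |(discr L : ℝ)| ^ (1 / 2 - δ : ℝ) := by
  rintro n ⟨a, ha, hn⟩
  have he : Even (2 ^ a) := by rw [Nat.even_pow]; exact ⟨even_two, by omega⟩
  have h2 : 2 ≤ 2 ^ a := by
    calc 2 = 2 ^ 1 := (pow_one 2).symm
      _ ≤ 2 ^ a := Nat.pow_le_pow_right (by norm_num) ha
  have hev : Even n := by
    rcases hn with rfl | rfl
    · exact he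
    · exact he.mul_left 3
  obtain ⟨δ, C, hδ, hC, h⟩ := even_of hG n hev (by omega) 1 one_pos
  refine ⟨δ, C, hδ, hC, ?_⟩
  intro L _ _ hL hno
  apply h L hL hno
  intro F hF
  have h1 : Module.finrank ℚ F * Module.finrank F L = n := by
    rw [Module.finrank_mul_finrank, hL]
  have hcop : Nat.Coprime (Module.finrank F L) (2 ^ a) :=
    (Nat.coprime_two_right.2 hF).pow_right a
  have hdvd : Module.finrank F L ∣ 3 := by
    have h3 : Module.finrank F L ∣ n := ⟨_, by rw [← h1, mul_comm]⟩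
    rcases hn with rfl | rfl
    · have h4 := Nat.dvd_gcd (dvd_refl _) h3
      rw [hcop.gcd_eq_one] at h4
      exact h4.trans (one_dvd 3)
    · exact hcop.dvd_of_dvd_mul_right h3
  obtain h4 | h4 := (Nat.dvd_prime Nat.prime_three).1 hdvd
  · left
    have h5 : F = ⊤ := by
      rw [← IntermediateField.finrank_eq_one_iff_eq_top]
      exact h4
    subst h5
    rw [GE.discr_top, Real.rpow_one]
  · right
    refine ⟨h4, a, ?_⟩
    rcases hn with rfl | rfl
    · exfalso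
      rw [h4] at hcop
      have h6 : 3 ∣ 2 ^ a := ⟨_, by rw [← h1, h4, mul_comm]⟩
      have h7 := Nat.Coprime.eq_one_of_dvd hcop h6
      omega
    · rw [h4] at h1
      omega

/-- all sextic fields -/
theorem sextic_of (hG : S_GER) : ∃ δ C : ℝ, 0 < δ ∧ 0 < C ∧ ∀ (L : Type) [Field L] [NumberField L],
    Module.finrank ℚ L = 6 → (h3 L : ℝ) ≤ C * |(discr L : ℝ)| ^ (1 / 2 - δ : ℝ) := by
  obtain ⟨δ1, C1, hδ1, hC1, h1⟩ := two_three_of hG 6 ⟨1, le_rfl, Or.inr (by norm_num)⟩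
  obtain ⟨δ2, C2, hδ2, hC2, h2⟩ := sextic_om hG
  refine ⟨min δ1 δ2, max C1 C2, by positivity, lt_max_of_lt_left hC1, ?_⟩
  intro L _ _ hL
  have hD1 := one_le_D L
  have key : ∀ (δ' C' : ℝ), 0 < C' → min δ1 δ2 ≤ δ' → C' ≤ max C1 C2 →
      C' * |(discr L : ℝ)| ^ (1 / 2 - δ' : ℝ) ≤
        max C1 C2 * |(discr L : ℝ)| ^ (1 / 2 - min δ1 δ2 : ℝ) := by
    intro δ' C' hC' hδ' hC''
    apply mul_le_mul hC'' _ (by positivity) (by positivity)
    apply Real.rpow_le_rpow_of_exponent_le hD1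
    linarith
  by_cases hno : GE.NoOm L
  · exact (h1 L hL hno).trans (key δ1 C1 hC1 (min_le_left _ _) (le_max_left _ _))
  · have hz : ∃ z : L, z ^ 2 + z + 1 = 0 := by
      unfold GE.NoOm at hno
      push Not at hno
      exact hno
    exact (h2 L hL hz).trans (key δ2 C2 hC2 (min_le_right _ _) (le_max_right _ _))

end Pool.Agent.K1H79.SX
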