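import Pool.Agent.K1H79.SX.Thm
import Pool.Agent.K1H79.SX.Cmp

/-! # Fields of even degree over a fixed base field (helper79) -/

set_option autoImplicit false

namespace Pool.Agent.K1H79.SX

open NumberField

/-- the index of a subfield which contains the image of `A` divides the degree over `A` -/
theorem idx_dvd {A K : Type} [Field A] [NumberField A] [Field K] [NumberField K] [Algebra A K]
    (E : IntermediateField ℚ K) (hA : ∀ x : A, algebraMap A K x ∈ E) :
    Module.finrank E K ∣ Module.finrank A K := by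
  obtain ⟨φ, hφ⟩ : ∃ φ : A →ₐ[ℚ] K, ∀ y, φ y = algebraMap A K y := ⟨(algebraMap A K).toRatAlgHom, fun _ => rfl⟩
  have h1 : φ.fieldRange ≤ E := by
    rintro x ⟨y, rfl⟩
    change φ y ∈ E
    rw [hφ]
    exact hA y
  have h2 := IntermediateField.finrank_dvd_of_le_left h1
  have h3 : Module.finrank ℚ φ.fieldRange = Module.finrank ℚ A :=
    (LinearEquiv.finrank_eq (AlgEquiv.ofInjectiveField φ).toLinearEquiv).symm
  have h4 : Module.finrank ℚ φ.fieldRange * Module.finrank φ.fieldRange K = Module.finrank ℚ K :=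
    Module.finrank_mul_finrank _ _ _
  have hfin : FiniteDimensional A K := FiniteDimensional.right ℚ A K
  have h5 : Module.finrank ℚ A * Module.finrank A K = Module.finrank ℚ K :=
    Module.finrank_mul_finrank _ _ _
  have h6 : 0 < Module.finrank ℚ A := Module.finrank_pos
  have h7 : Module.finrank φ.fieldRange K = Module.finrank A K := by
    rw [h3] at h4
    exact Nat.eq_of_mul_eq_mul_left h6 (h4.trans h5.symm)
  rwa [h7] at h2

/-- the 3-torsion of a quadratic extension of a field of degree `m` -/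
theorem quad_gen (hGE : GE.S_GE) (hSUB : GE.S_SUB) (m : ℕ) (hm : 1 ≤ m) :
    ∃ δ C : ℝ, 0 < δ ∧ δ ≤ 1 / 2 ∧ 0 < C ∧
    ∀ (F F' : Type) [Field F] [NumberField F] [Field F'] [NumberField F'] [Algebra F F'],
      Module.finrank ℚ F = m → Module.finrank F F' = 2 → GE.NoOm F →
      (h3 F' : ℝ) ≤ C * (|(discr F' : ℝ)| ^ (1 / 2 - δ : ℝ) + |(discr F : ℝ)| ^ C) := by
  obtain ⟨C0, hC0, h0⟩ := comp_small hSUB (2 * m)
  have hC00 : 0 < C0 := by linarith
  obtain ⟨δ, C1, hδ, hC1, h1⟩ := hGE (2 * m) (even_two_mul m) (by omega) (1 / (2 * C0)) (by positivity)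
  obtain ⟨C2, hC2, h2⟩ := t_TRIV (2 * m)
  obtain ⟨C, hC⟩ : ∃ C : ℝ, C = 2 + C1 + C2 * 3 ^ m + C2 * C0 ^ 2 + 2 * C0 := ⟨_, rfl⟩
  have hpos1 : 0 < C2 * 3 ^ m := by positivity
  have hpos2 : 0 < C2 * C0 ^ 2 := by positivity
  have hCpos : 0 < C := by rw [hC]; positivity
  refine ⟨min δ (1 / 2), C, by positivity, min_le_right _ _, hCpos, ?_⟩
  intro F F' _ _ _ _ _ hF hF' hno
  have hdeg : Module.finrank ℚ F' = 2 * m := by
    rw [← Module.finrank_mul_finrank ℚ F F', hF, hF', mul_comm]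
  have hD1 := one_le_D F'
  have hd1 := one_le_D F
  have hp : 0 ≤ |(discr F' : ℝ)| ^ (1 / 2 - min δ (1 / 2) : ℝ) := by positivity
  have hq : 0 ≤ |(discr F : ℝ)| ^ C := by positivity
  by_cases hno' : GE.NoOm F'
  · by_cases hcase : √|(discr F' : ℝ)| ≤ C0 * |(discr F : ℝ)| ^ C0
    · have h5 : |(discr F' : ℝ)| ≤ C0 ^ 2 * |(discr F : ℝ)| ^ (2 * C0) := by
        calc |(discr F' : ℝ)| = √|(discr F' : ℝ)| ^ 2 := (Real.sq_sqrt (abs_nonneg _)).symm
          _ ≤ (C0 * |(discr F : ℝ)| ^ C0) ^ 2 := pow_le_pow_left₀ (Real.sqrt_nonneg _) hcase 2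
          _ = C0 ^ 2 * |(discr F : ℝ)| ^ (2 * C0) := by
              rw [mul_pow, mul_comm 2 C0, Real.rpow_mul (abs_nonneg _), Real.rpow_two]
      have h6 : |(discr F : ℝ)| ^ (2 * C0) ≤ |(discr F : ℝ)| ^ C :=
        Real.rpow_le_rpow_of_exponent_le hd1 (by linarith)
      calc (h3 F' : ℝ) ≤ C2 * |(discr F' : ℝ)| := h2 F' hdeg
        _ ≤ C2 * (C0 ^ 2 * |(discr F : ℝ)| ^ C) := by
            apply mul_le_mul_of_nonneg_left _ hC2.le
            exact h5.trans (mul_le_mul_of_nonneg_left h6 (by positivity))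
        _ = C2 * C0 ^ 2 * |(discr F : ℝ)| ^ C := by ring
        _ ≤ C * |(discr F : ℝ)| ^ C := mul_le_mul_of_nonneg_right (by linarith) hq
        _ ≤ _ := by
            apply mul_le_mul_of_nonneg_left _ hCpos.le
            linarith
    · have hbig : ∀ F2 : IntermediateField ℚ F', Odd (Module.finrank F2 F') →
          |(discr F' : ℝ)| ^ (1 / (2 * C0)) ≤ |(discr F2 : ℝ)| := by
        intro F2 hodd
        obtain ⟨E, hE1, hE2, hE3⟩ := h0 F F' hdeg F2
        have h5 := idx_dvd E hE2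
        rw [hF'] at h5
        have h6 : Module.finrank E F' ∣ Module.finrank F2 F' := IntermediateField.finrank_dvd_of_le_left hE1
        have h7 : Module.finrank E F' = 1 := by
          obtain h8 | h8 := (Nat.dvd_prime Nat.prime_two).1 h5
          · exact h8
          · exfalso
            rw [h8] at h6
            exact (Nat.not_even_iff_odd.2 hodd) (even_iff_two_dvd.2 h6)
        have h8 : E = ⊤ := by
          rw [← IntermediateField.finrank_eq_one_iff_eq_top]
          exact h7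
        rw [h8, GE.discr_top] at hE3
        have hd2 := one_le_D F2
        have h9 : √|(discr F' : ℝ)| ≤ |(discr F2 : ℝ)| ^ C0 := by
          have h10 : √|(discr F' : ℝ)| * √|(discr F' : ℝ)| ≤ √|(discr F' : ℝ)| * |(discr F2 : ℝ)| ^ C0 := by
            rw [Real.mul_self_sqrt (abs_nonneg _)]
            refine hE3.trans ?_
            rw [Real.mul_rpow (abs_nonneg _) (abs_nonneg _)]
            calc C0 * (|(discr F2 : ℝ)| ^ C0 * |(discr F : ℝ)| ^ C0)
                = (C0 * |(discr F : ℝ)| ^ C0) * |(discr F2 : ℝ)| ^ C0 := by ring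
              _ ≤ √|(discr F' : ℝ)| * |(discr F2 : ℝ)| ^ C0 := by
                  apply mul_le_mul_of_nonneg_right (le_of_lt (not_le.1 hcase)) (by positivity)
          have h11 : 0 < √|(discr F' : ℝ)| := Real.sqrt_pos.2 (by linarith)
          exact le_of_mul_le_mul_left h10 h11
        calc |(discr F' : ℝ)| ^ (1 / (2 * C0)) = (√|(discr F' : ℝ)|) ^ (1 / C0) := by
              rw [Real.sqrt_eq_rpow, ← Real.rpow_mul (abs_nonneg _)]
              congr 1
              field_simp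
          _ ≤ (|(discr F2 : ℝ)| ^ C0) ^ (1 / C0) := Real.rpow_le_rpow (Real.sqrt_nonneg _) h9 (by positivity)
          _ = |(discr F2 : ℝ)| := by
              rw [← Real.rpow_mul (abs_nonneg _), mul_one_div_cancel hC00.ne', Real.rpow_one]
      calc (h3 F' : ℝ) ≤ C1 * |(discr F' : ℝ)| ^ (1 / 2 - δ : ℝ) := h1 F' hdeg hno' hbig
        _ ≤ C * |(discr F' : ℝ)| ^ (1 / 2 - min δ (1 / 2) : ℝ) := by
            apply mul_le_mul (by linarith) _ (by positivity) hCpos.le
            apply Real.rpow_le_rpow_of_exponent_le hD1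
            have := min_le_left δ (1 / 2)
            linarith
        _ ≤ _ := by
            apply mul_le_mul_of_nonneg_left _ hCpos.le
            linarith
  · have hz : ∃ z : F', z ^ 2 + z + 1 = 0 := by
      unfold GE.NoOm at hno'
      push Not at hno'
      exact hno'
    obtain ⟨ω, hω⟩ := hz
    have h5 := (RF.t_DISC F F' hF' ω hω hno).2
    rw [hF] at h5
    have h6 : |(discr F : ℝ)| ^ 2 ≤ |(discr F : ℝ)| ^ C := by
      rw [← Real.rpow_two]
      exact Real.rpow_le_rpow_of_exponent_le hd1 (by linarith)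
    calc (h3 F' : ℝ) ≤ C2 * |(discr F' : ℝ)| := h2 F' hdeg
      _ ≤ C2 * (3 ^ m * |(discr F : ℝ)| ^ 2) := mul_le_mul_of_nonneg_left h5 hC2.le
      _ = C2 * 3 ^ m * |(discr F : ℝ)| ^ 2 := by ring
      _ ≤ C * |(discr F : ℝ)| ^ C := by
          apply mul_le_mul (by linarith) h6 (by positivity) hCpos.le
      _ ≤ _ := by
          apply mul_le_mul_of_nonneg_left _ hCpos.le
          linarith [hp]

/-- numerical lemma -/
theorem num_case2 {D d C C' δ ε η : ℝ} (hD : 1 ≤ D) (hd1 : 1 ≤ d) (hd : d ≤ D ^ η) (hC : 0 < C) (hC' : 0 < C')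
    (hδ : 0 < δ) (hδ2 : δ ≤ 1 / 2) (hη : 0 < η) (h1 : ε ≤ δ / 4) (h2 : (2 * C + C') * η ≤ δ / 4) :
    C * D ^ ε * d ^ C ≤ C * D ^ (1 / 2 - δ / 2) ∧ ∀ E : ℝ, 1 ≤ E → E ≤ C * d ^ C * D →
    C * D ^ ε * d ^ C * (E ^ (1 / 2 - δ) + d ^ C') ≤ C * (C ^ (1 / 2 - δ) + 1) * D ^ (1 / 2 - δ / 2) := by
  have hD0 : 0 < D := by linarith
  have hd0 : 0 < d := by linarith
  have hdC : d ^ C ≤ D ^ (η * C) := by
    rw [Real.rpow_mul hD0.le]
    exact Real.rpow_le_rpow hd0.le hd hC.le
  have hd2 : d ^ C' ≤ D ^ (η * C') := by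
    rw [Real.rpow_mul hD0.le]
    exact Real.rpow_le_rpow hd0.le hd hC'.le
  have hηC : 0 < η * C := by positivity
  have hηC' : 0 < η * C' := by positivity
  have hE2 : ∀ E : ℝ, 1 ≤ E → E ≤ C * d ^ C * D →
      E ^ (1 / 2 - δ) ≤ C ^ (1 / 2 - δ) * D ^ (η * C + (1 / 2 - δ)) := by
    intro E hE1 hE
    calc E ^ (1 / 2 - δ) ≤ (C * D ^ (η * C) * D) ^ (1 / 2 - δ) := by
          apply Real.rpow_le_rpow (by linarith) _ (by linarith)
          refine hE.trans ?_
          apply mul_le_mul_of_nonneg_right _ hD0.le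
          exact mul_le_mul_of_nonneg_left hdC hC.le
      _ = C ^ (1 / 2 - δ) * (D ^ (η * C) * D) ^ (1 / 2 - δ) := by
          rw [mul_assoc, Real.mul_rpow hC.le (by positivity)]
      _ = C ^ (1 / 2 - δ) * D ^ ((η * C + 1) * (1 / 2 - δ)) := by
          congr 1
          rw [Real.rpow_mul hD0.le (η * C + 1) (1 / 2 - δ), Real.rpow_add hD0, Real.rpow_one]
      _ ≤ C ^ (1 / 2 - δ) * D ^ (η * C + (1 / 2 - δ)) := by
          apply mul_le_mul_of_nonneg_left _ (by positivity)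
          apply Real.rpow_le_rpow_of_exponent_le hD
          nlinarith
  constructor
  · calc C * D ^ ε * d ^ C ≤ C * D ^ ε * D ^ (η * C) := mul_le_mul_of_nonneg_left hdC (by positivity)
      _ = C * D ^ (ε + η * C) := by rw [mul_assoc, ← Real.rpow_add hD0]
      _ ≤ C * D ^ (1 / 2 - δ / 2) := by
          apply mul_le_mul_of_nonneg_left _ hC.le
          apply Real.rpow_le_rpow_of_exponent_le hD
          nlinarith
  · intro E hE1 hE
    calc C * D ^ ε * d ^ C * (E ^ (1 / 2 - δ) + d ^ C')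
        ≤ C * D ^ ε * D ^ (η * C) * (C ^ (1 / 2 - δ) * D ^ (η * C + (1 / 2 - δ)) + D ^ (η * C')) := by
          apply mul_le_mul _ _ (by positivity) (by positivity)
          · exact mul_le_mul_of_nonneg_left hdC (by positivity)
          · exact add_le_add (hE2 E hE1 hE) hd2
      _ = C * (C ^ (1 / 2 - δ) * D ^ (ε + η * C + (η * C + (1 / 2 - δ))) + D ^ (ε + η * C + η * C')) := by
          rw [Real.rpow_add hD0 (ε + η * C), Real.rpow_add hD0 (ε + η * C), Real.rpow_add hD0 ε]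
          ring
      _ ≤ C * (C ^ (1 / 2 - δ) * D ^ (1 / 2 - δ / 2) + D ^ (1 / 2 - δ / 2)) := by
          apply mul_le_mul_of_nonneg_left _ hC.le
          apply add_le_add
          · apply mul_le_mul_of_nonneg_left _ (by positivity)
            apply Real.rpow_le_rpow_of_exponent_le hD
            nlinarith
          · apply Real.rpow_le_rpow_of_exponent_le hD
            nlinarith
      _ = C * (C ^ (1 / 2 - δ) + 1) * D ^ (1 / 2 - δ / 2) := by ring

/-- fields of even degree over `k` without `√-3`: the subfields of odd index `≥ 5` which contain `k` are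
assumed to have large discriminant -/
def S_GEN : Prop := ∀ (k : Type) [Field k] [NumberField k] (n : ℕ), Even n → 0 < n → ∀ η : ℝ, 0 < η →
  ∃ δ C : ℝ, 0 < δ ∧ 0 < C ∧ ∀ (K : Type) [Field K] [NumberField K] [Algebra k K],
    Module.finrank k K = n → GE.NoOm K →
    (∀ F : IntermediateField ℚ K, (∀ x : k, algebraMap k K x ∈ F) → Odd (Module.finrank F K) →
      5 ≤ Module.finrank F K → |(discr K : ℝ)| ^ η ≤ |(discr F : ℝ)|) →
    (h3 K : ℝ) ≤ C * |(discr K : ℝ)| ^ (1 / 2 - δ : ℝ)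

theorem gen_of (hGE : GE.S_GE) (hSUB : GE.S_SUB) (hG : S_GER) : S_GEN := by
  intro k _ _ n hn hn0 η hη
  obtain ⟨m, hm⟩ : ∃ m : ℕ, m = Module.finrank ℚ k * n := ⟨_, rfl⟩
  have hk0 : 0 < Module.finrank ℚ k := Module.finrank_pos
  have hmev : Even m := by rw [hm]; exact hn.mul_left _
  have hm0 : 0 < m := by rw [hm]; exact Nat.mul_pos hk0 hn0
  have hm2 : 2 ≤ m := by
    obtain ⟨r, hr⟩ := hmev
    omega
  obtain ⟨C0, hC0, h0⟩ := comp_small hSUB m
  have hC00 : 0 < C0 := by linarith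
  obtain ⟨C2, hC2, h2⟩ := t_TRIV m
  obtain ⟨m1, hm1⟩ : ∃ m1 : ℕ, m1 = max 1 (m / 3) := ⟨_, rfl⟩
  obtain ⟨δ, CQ, hδ, hδ2, hCQ, hQ⟩ := quad_gen hGE hSUB m1 (by rw [hm1]; exact le_max_left _ _)
  obtain ⟨C3, hC3, h3'⟩ := hG m1 (δ / 4) (by positivity)
  have hdk := one_le_D k
  obtain ⟨C5, hC5⟩ : ∃ C5 : ℝ, C5 = C0 * |(discr k : ℝ)| ^ C0 := ⟨_, rfl⟩
  have hC51 : 1 ≤ C5 := by
    rw [hC5]
    exact one_le_mul_of_one_le_of_one_le hC0 (Real.one_le_rpow hdk hC00.le)
  obtain ⟨η1, hη1⟩ : ∃ η1 : ℝ, η1 = min (η / 2) (min (1 / 4) (δ / (8 * (2 * C3 + CQ)))) := ⟨_, rfl⟩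
  have hη10 : 0 < η1 := by rw [hη1]; positivity
  have hη11 : 2 * η1 ≤ η := by
    have : η1 ≤ η / 2 := by rw [hη1]; exact min_le_left _ _
    linarith
  have hη12 : 2 * η1 ≤ 1 / 2 := by
    have : η1 ≤ 1 / 4 := by rw [hη1]; exact (min_le_right _ _).trans (min_le_left _ _)
    linarith
  have hη13 : (2 * C3 + CQ) * (2 * η1) ≤ δ / 4 := by
    have h4 : η1 ≤ δ / (8 * (2 * C3 + CQ)) := by rw [hη1]; exact (min_le_right _ _).trans (min_le_right _ _)
    have h5 : (2 * C3 + CQ) * (2 * (δ / (8 * (2 * C3 + CQ)))) = δ / 4 := by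
      field_simp
      norm_num
    calc (2 * C3 + CQ) * (2 * η1) ≤ (2 * C3 + CQ) * (2 * (δ / (8 * (2 * C3 + CQ)))) := by
          apply mul_le_mul_of_nonneg_left _ (by positivity)
          linarith
      _ = δ / 4 := h5
  obtain ⟨δ4, C4, hδ4, hC4, h4⟩ := hGE m hmev hm2 (η1 / C0) (by positivity)
  obtain ⟨D0, hD0⟩ : ∃ D0 : ℝ, D0 = C5 ^ (1 / η1) := ⟨_, rfl⟩
  have hD01 : 1 ≤ D0 := by rw [hD0]; exact Real.one_le_rpow hC51 (by positivity)
  have hT2 : 0 < C2 * D0 := by positivity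
  have hT3 : 0 < C3 * (C3 ^ (1 / 2 - δ) + 1) * CQ := by positivity
  obtain ⟨C, hC⟩ : ∃ C : ℝ, C = C4 + C2 * D0 + C3 + C3 * (C3 ^ (1 / 2 - δ) + 1) * CQ := ⟨_, rfl⟩
  have hCpos : 0 < C := by rw [hC]; positivity
  refine ⟨min δ4 (δ / 2), C, by positivity, hCpos, ?_⟩
  intro K _ _ _ hK hno hsub
  have hfin : FiniteDimensional k K := FiniteDimensional.right ℚ k K
  have hKm : Module.finrank ℚ K = m := by
    rw [hm, ← hK, Module.finrank_mul_finrank]
  have hD1 := one_le_D K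
  have hmono : ∀ (δ' C' : ℝ), 0 < C' → min δ4 (δ / 2) ≤ δ' → C' ≤ C →
      C' * |(discr K : ℝ)| ^ (1 / 2 - δ' : ℝ) ≤ C * |(discr K : ℝ)| ^ (1 / 2 - min δ4 (δ / 2) : ℝ) := by
    intro δ' C' hC' hδ' hC''
    apply mul_le_mul hC'' _ (by positivity) hCpos.le
    apply Real.rpow_le_rpow_of_exponent_le hD1
    linarith
  by_cases hDD : |(discr K : ℝ)| ≤ D0
  · have h5 : (1 : ℝ) ≤ |(discr K : ℝ)| ^ (1 / 2 - δ / 2 : ℝ) := Real.one_le_rpow hD1 (by linarith)
    calc (h3 K : ℝ) ≤ C2 * |(discr K : ℝ)| := h2 K hKm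
      _ ≤ C2 * D0 := mul_le_mul_of_nonneg_left hDD hC2.le
      _ ≤ C2 * D0 * |(discr K : ℝ)| ^ (1 / 2 - δ / 2 : ℝ) := le_mul_of_one_le_right hT2.le h5
      _ ≤ _ := hmono (δ / 2) _ hT2 (min_le_right _ _) (by rw [hC]; linarith)
  have hDD' : D0 < |(discr K : ℝ)| := not_le.1 hDD
  have hDgt : 1 < |(discr K : ℝ)| := by linarith
  have hC5D : C5 ≤ |(discr K : ℝ)| ^ η1 := by
    have h5 : D0 ^ η1 ≤ |(discr K : ℝ)| ^ η1 := Real.rpow_le_rpow (by linarith) hDD'.le hη10.le
    rwa [hD0, ← Real.rpow_mul (by linarith), one_div_mul_cancel hη10.ne', Real.rpow_one] at h5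
  by_cases hall : ∀ F : IntermediateField ℚ K, Odd (Module.finrank F K) →
      |(discr K : ℝ)| ^ (η1 / C0) ≤ |(discr F : ℝ)|
  · exact (h4 K hKm hno hall).trans (hmono δ4 C4 hC4 (min_le_left _ _) (by rw [hC]; linarith))
  · push Not at hall
    obtain ⟨F, hF1, hF2⟩ := hall
    obtain ⟨E, hE1, hE2, hE3⟩ := h0 k K hKm F
    have hdF := one_le_D F
    have hdE := one_le_D E
    have hEs : |(discr E : ℝ)| < |(discr K : ℝ)| ^ (2 * η1) := by
      calc |(discr E : ℝ)| ≤ C0 * (|(discr F : ℝ)| * |(discr k : ℝ)|) ^ C0 := hE3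
        _ = C5 * |(discr F : ℝ)| ^ C0 := by
            rw [Real.mul_rpow (abs_nonneg _) (abs_nonneg _), hC5]
            ring
        _ < C5 * (|(discr K : ℝ)| ^ (η1 / C0)) ^ C0 := by
            apply mul_lt_mul_of_pos_left _ (by linarith)
            exact Real.rpow_lt_rpow (abs_nonneg _) hF2 hC00
        _ = C5 * |(discr K : ℝ)| ^ η1 := by
            rw [← Real.rpow_mul (abs_nonneg _), div_mul_cancel₀ _ hC00.ne']
        _ ≤ |(discr K : ℝ)| ^ η1 * |(discr K : ℝ)| ^ η1 :=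
            mul_le_mul_of_nonneg_right hC5D (by positivity)
        _ = |(discr K : ℝ)| ^ (2 * η1) := by
            rw [← Real.rpow_add (by linarith)]
            congr 1
            ring
    have h6 : Module.finrank E K ∣ Module.finrank F K := IntermediateField.finrank_dvd_of_le_left hE1
    have hodd : Odd (Module.finrank E K) := Odd.of_dvd_nat hF1 h6
    obtain hj | hj | hj : Module.finrank E K = 1 ∨ Module.finrank E K = 3 ∨ 5 ≤ Module.finrank E K := by
      obtain ⟨r, hr⟩ := hodd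
      omega
    · exfalso
      have h8 : E = ⊤ := by
        rw [← IntermediateField.finrank_eq_one_iff_eq_top]
        exact hj
      rw [h8, GE.discr_top] at hEs
      have h9 : |(discr K : ℝ)| ^ (2 * η1) ≤ |(discr K : ℝ)| ^ (1 : ℝ) :=
        Real.rpow_le_rpow_of_exponent_le hD1 (by linarith)
      rw [Real.rpow_one] at h9
      linarith
    · have hEm : Module.finrank ℚ E = m1 := by
        have h7 : Module.finrank ℚ E * Module.finrank E K = m := by
          rw [Module.finrank_mul_finrank, hKm]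
        have h8 : 0 < Module.finrank ℚ E := Module.finrank_pos
        rw [hj] at h7
        rw [hm1]
        omega
      obtain h8 | ⟨F', _, _, _, h8, h9, h10⟩ := h3' E K hEm hj
      · have h11 := (num_case2 hD1 hdE hEs.le hC3 hCQ hδ hδ2 (by positivity) le_rfl hη13).1
        exact h8.trans (h11.trans (hmono (δ / 2) C3 hC3 (min_le_right _ _) (by rw [hC]; linarith)))
      · have h11 := (num_case2 hD1 hdE hEs.le hC3 hCQ hδ hδ2 (by positivity) le_rfl hη13).2 _ (one_le_D F') h9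
        have h12 := hQ E F' hEm h8 (noOm_sub hno)
        have h13 : (h3 K : ℝ) ≤ C3 * (C3 ^ (1 / 2 - δ) + 1) * CQ * |(discr K : ℝ)| ^ (1 / 2 - δ / 2) := by
          calc (h3 K : ℝ) ≤ C3 * |(discr K : ℝ)| ^ (δ / 4) * |(discr E : ℝ)| ^ C3 * h3 F' := h10
            _ ≤ C3 * |(discr K : ℝ)| ^ (δ / 4) * |(discr E : ℝ)| ^ C3 *
                (CQ * (|(discr F' : ℝ)| ^ (1 / 2 - δ : ℝ) + |(discr E : ℝ)| ^ CQ)) :=
                mul_le_mul_of_nonneg_left h12 (by positivity)
            _ = C3 * |(discr K : ℝ)| ^ (δ / 4) * |(discr E : ℝ)| ^ C3 *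
                (|(discr F' : ℝ)| ^ (1 / 2 - δ : ℝ) + |(discr E : ℝ)| ^ CQ) * CQ := by ring
            _ ≤ C3 * (C3 ^ (1 / 2 - δ) + 1) * |(discr K : ℝ)| ^ (1 / 2 - δ / 2) * CQ :=
                mul_le_mul_of_nonneg_right h11 hCQ.le
            _ = _ := by ring
        exact h13.trans (hmono (δ / 2) _ hT3 (min_le_right _ _) (by rw [hC]; linarith))
    · exfalso
      have h8 := hsub E hE2 hodd hj
      have h9 : |(discr K : ℝ)| ^ (2 * η1) ≤ |(discr K : ℝ)| ^ η :=
        Real.rpow_le_rpow_of_exponent_le hD1 hη11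
      linarith

theorem gen : S_GEN := gen_of GE.ge Pool.Agent.K1H39.GE.t_SUB ger

end Pool.Agent.K1H79.SX
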