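import Mathlib

/-! # Cubic extensions `L/F`: the 3-torsion of `L` and of the quadratic resolvent (Mathlib only)

Owner helper79.  Project SX: `|Cl_L[3]| ≤ C |disc L|^(1/2 - δ)` for all sextic fields, and for the extensions
of degree `3 · 2^a` of a fixed number field which do not contain `√-3`. -/

set_option autoImplicit false

namespace Pool.Agent.K1H79.SX

open NumberField
open scoped Classical nonZeroDivisors

/-- the number of the classes killed by `3` -/
noncomputable def h3 (L : Type) [Field L] [NumberField L] : ℕ :=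
  Nat.card {c : ClassGroup (𝓞 L) // c ^ 3 = 1}

/-- the nonzero primes of `F` which are not squarefree in `M` (the ramified ones) -/
def RamS (F M : Type) [Field F] [NumberField F] [Field M] [NumberField M] [Algebra F M] :
    Set (Ideal (𝓞 F)) :=
  {𝔭 | 𝔭.IsPrime ∧ 𝔭 ≠ ⊥ ∧ ¬ Squarefree (𝔭.map (algebraMap (𝓞 F) (𝓞 M)))}

/-- the action of an automorphism on the integers -/
noncomputable def sg {F M : Type} [Field F] [NumberField F] [Field M] [NumberField M] [Algebra F M]
    (σ : M ≃ₐ[F] M) : 𝓞 M ≃+* 𝓞 M := RingOfIntegers.mapRingEquiv (σ : M ≃+* M)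

/-- the class is fixed by the automorphism -/
def Fix {M : Type} [Field M] [NumberField M] (e : 𝓞 M ≃+* 𝓞 M) (c : ClassGroup (𝓞 M)) : Prop :=
  ∀ I J : (Ideal (𝓞 M))⁰, ClassGroup.mk0 I = c →
    (J : Ideal (𝓞 M)) = (I : Ideal (𝓞 M)).map (e : 𝓞 M →+* 𝓞 M) → ClassGroup.mk0 J = c

/-- the class contains an invariant ideal -/
def InvI (F M : Type) [Field F] [NumberField F] [Field M] [NumberField M] [Algebra F M]
    (c : ClassGroup (𝓞 M)) : Prop :=
  ∃ I : (Ideal (𝓞 M))⁰, ClassGroup.mk0 I = c ∧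
    ∀ σ : M ≃ₐ[F] M, (I : Ideal (𝓞 M)).map (sg σ : 𝓞 M →+* 𝓞 M) = I

/-- X1: the ramified primes are finite in number, and bounded -/
def S_RAM : Prop := ∀ (F L : Type) [Field F] [NumberField F] [Field L] [NumberField L] [Algebra F L],
  (RamS F L).Finite ∧
  Nat.card (RamS F L) ≤ Module.finrank ℚ F * (discr L).natAbs.primeFactors.card ∧
  ∀ S : Finset (Ideal (𝓞 F)), (∀ 𝔭 ∈ S, 𝔭 ∈ RamS F L) →
    ∏ 𝔭 ∈ S, Ideal.absNorm 𝔭 ≤ (discr L).natAbs

/-- X2: invariant ideals -/
def S_INV : Prop := ∀ (F M : Type) [Field F] [NumberField F] [Field M] [NumberField M] [Algebra F M]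
  [IsGalois F M], (RamS F M).Finite →
  Nat.card {c : ClassGroup (𝓞 M) // c ^ 3 = 1 ∧ InvI F M c} ≤
    Module.finrank F M ^ Nat.card (RamS F M) * h3 F

/-- X3: the ambiguous classes of a cyclic cubic extension -/
def S_AMB : Prop := ∀ (F M : Type) [Field F] [NumberField F] [Field M] [NumberField M] [Algebra F M]
  [IsGalois F M], Module.finrank F M = 3 → ∀ H : Subgroup (ClassGroup (𝓞 M)),
    (∀ c ∈ H, c ^ 3 = 1 ∧ ∀ σ : M ≃ₐ[F] M, Fix (sg σ) c) →
  Nat.card H ≤ 3 ^ Module.finrank ℚ F * Nat.card {c : ClassGroup (𝓞 M) // c ∈ H ∧ InvI F M c}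

/-- the configuration of a non-Galois cubic extension `L/F`, its quadratic resolvent `F'` and its Galois
closure `M` -/
def IsS3 (F L F' M : Type) [Field F] [NumberField F] [Field L] [NumberField L] [Field F'] [NumberField F']
    [Field M] [NumberField M] [Algebra F L] [Algebra F F'] [Algebra F M] [Algebra L M] [Algebra F' M] :
    Prop :=
  IsScalarTower F L M ∧ IsScalarTower F F' M ∧ IsGalois F M ∧ Module.finrank F L = 3 ∧
    Module.finrank F F' = 2 ∧ Module.finrank L M = 2 ∧ Module.finrank F' M = 3 ∧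
    ∀ (σ : M ≃ₐ[F'] M) (τ : M ≃ₐ[L] M), τ ≠ 1 → ∀ x : M, τ (σ (τ x)) = σ.symm x

/-- X4: the 3-torsion of a non-Galois cubic extension -/
def S_S3 : Prop := ∀ (F L F' M : Type) [Field F] [NumberField F] [Field L] [NumberField L] [Field F']
    [NumberField F'] [Field M] [NumberField M] [Algebra F L] [Algebra F F'] [Algebra F M] [Algebra L M]
    [Algebra F' M], IsS3 F L F' M →
  h3 L ≤ 3 ^ (2 * Module.finrank ℚ F') * 6 ^ Nat.card (RamS F M) * 3 ^ Nat.card (RamS F' M) *
    h3 F ^ 2 * h3 F'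

def S_S3of : Prop := S_INV → S_AMB → S_RAM → S_S3

/-- X5: the 3-torsion of a cyclic cubic extension -/
def S_C3 : Prop := ∀ (F L : Type) [Field F] [NumberField F] [Field L] [NumberField L] [Algebra F L]
  [IsGalois F L], Module.finrank F L = 3 →
  h3 L ≤ 3 ^ (2 * Module.finrank ℚ F) * 3 ^ (2 * Nat.card (RamS F L)) * h3 F ^ 3

def S_C3of : Prop := S_INV → S_AMB → S_RAM → S_C3

/-- X6: existence of the configuration -/
def S_GAL : Prop := ∀ (F L : Type) [Field F] [NumberField F] [Field L] [NumberField L] [Algebra F L],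
  Module.finrank F L = 3 → ¬ IsGalois F L →
  ∃ (F' M : Type) (_ : Field F') (_ : NumberField F') (_ : Field M) (_ : NumberField M)
    (_ : Algebra F F') (_ : Algebra F M) (_ : Algebra L M) (_ : Algebra F' M), IsS3 F L F' M

/-- X7: ramification in the Galois closure -/
def S_RAMC : Prop := ∀ (F L F' M : Type) [Field F] [NumberField F] [Field L] [NumberField L] [Field F']
    [NumberField F'] [Field M] [NumberField M] [Algebra F L] [Algebra F F'] [Algebra F M] [Algebra L M]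
    [Algebra F' M], IsS3 F L F' M →
  RamS F M ⊆ RamS F L ∧ RamS F F' ⊆ RamS F L ∧ Nat.card (RamS F' M) ≤ 2 * Nat.card (RamS F L)

/-- X8: the discriminant of a quadratic extension -/
def S_DQ : Prop := ∀ (F F' : Type) [Field F] [NumberField F] [Field F'] [NumberField F'] [Algebra F F'],
  Module.finrank F F' = 2 → ∀ S : Finset (Ideal (𝓞 F)), (∀ 𝔭, 𝔭 ∈ S ↔ 𝔭 ∈ RamS F F') →
  (discr F').natAbs ≤ 4 ^ Module.finrank ℚ F * (discr F).natAbs ^ 2 * ∏ 𝔭 ∈ S, Ideal.absNorm 𝔭

/-- X9: the result on cubic extensions -/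
def S_GER : Prop := ∀ m : ℕ, ∀ ε : ℝ, 0 < ε → ∃ C : ℝ, 0 < C ∧
  ∀ (F L : Type) [Field F] [NumberField F] [Field L] [NumberField L] [Algebra F L],
    Module.finrank ℚ F = m → Module.finrank F L = 3 →
    ((h3 L : ℝ) ≤ C * |(discr L : ℝ)| ^ ε * |(discr F : ℝ)| ^ C) ∨
    ∃ (F' : Type) (_ : Field F') (_ : NumberField F') (_ : Algebra F F'), Module.finrank F F' = 2 ∧
      |(discr F' : ℝ)| ≤ C * |(discr F : ℝ)| ^ C * |(discr L : ℝ)| ∧
      (h3 L : ℝ) ≤ C * |(discr L : ℝ)| ^ ε * |(discr F : ℝ)| ^ C * h3 F'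

/-- the trivial bound -/
def S_TRIV : Prop := ∀ m : ℕ, ∃ C : ℝ, 0 < C ∧ ∀ (F : Type) [Field F] [NumberField F],
  Module.finrank ℚ F = m → (h3 F : ℝ) ≤ C * |(discr F : ℝ)|

def S_GERof : Prop := S_RAM → S_S3 → S_C3 → S_GAL → S_RAMC → S_DQ → S_TRIV → S_GER

end Pool.Agent.K1H79.SX
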