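import Pool.Agent.K1H79.SX.Fin
import Pool.Agent.K1H37.SX.S3

/-! # The closed theorems of the project SX -/

set_option autoImplicit false

namespace Pool.Agent.K1H79.SX

open NumberField

theorem ger : S_GER := ger_of Pool.Agent.K1H37.SX.t_S3of

theorem even : S_EVEN := even_of ger

theorem two_three : ∀ n : ℕ, (∃ a : ℕ, 1 ≤ a ∧ (n = 2 ^ a ∨ n = 3 * 2 ^ a)) →
    ∃ δ C : ℝ, 0 < δ ∧ 0 < C ∧ ∀ (L : Type) [Field L] [NumberField L],
      Module.finrank ℚ L = n → GE.NoOm L → (h3 L : ℝ) ≤ C * |(discr L : ℝ)| ^ (1 / 2 - δ : ℝ) :=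
  two_three_of ger

theorem sextic : ∃ δ C : ℝ, 0 < δ ∧ 0 < C ∧ ∀ (L : Type) [Field L] [NumberField L],
    Module.finrank ℚ L = 6 → (h3 L : ℝ) ≤ C * |(discr L : ℝ)| ^ (1 / 2 - δ : ℝ) := sextic_of ger

end Pool.Agent.K1H79.SX
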