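import Pool.Agent.K1H79.SX.Stm
import Pool.Agent.TH847.LG.EV
import Pool.Agent.K1H33.RM.Task

/-! # The trivial bound (helper79) -/

set_option autoImplicit false

namespace Pool.Agent.K1H79.SX

open NumberField Finset
open scoped Classical nonZeroDivisors

open Pool.Agent.TH847.LS

theorem card_FI_le {C : ℝ} (hC : 0 < C) {F : Type} [Field F] [NumberField F]
    (h : ∀ k : ℕ, 1 ≤ k → (Nat.card {J : Ideal (𝓞 F) // Ideal.absNorm J = k} : ℝ) ≤ C * (k : ℝ) ^ (1 / 2 : ℝ))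
    (N : ℕ) : ((FI F N).card : ℝ) ≤ C * ((N : ℝ) * (N : ℝ) ^ (1 / 2 : ℝ)) := by
  have h2 : (FI F N).card = ∑ k ∈ Icc 1 N, ((FI F N).filter (fun J => Ideal.absNorm J = k)).card := by
    apply Finset.card_eq_sum_card_fiberwise
    intro J hJ
    rw [Finset.mem_coe, mem_FI] at hJ
    rw [Finset.mem_coe, Finset.mem_Icc]
    exact ⟨absNorm_pos hJ.2, hJ.1⟩
  rw [h2]
  push_cast
  have h3 : ∀ k ∈ Icc 1 N, (((FI F N).filter (fun J => Ideal.absNorm J = k)).card : ℝ) ≤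
      C * (N : ℝ) ^ (1 / 2 : ℝ) := by
    intro k hk
    obtain ⟨hk1, hkN⟩ := Finset.mem_Icc.1 hk
    have hfin : Finite {J : Ideal (𝓞 F) // Ideal.absNorm J = k} :=
      (Ideal.finite_setOfPred_absNorm_eq (S := 𝓞 F) k).to_subtype
    have h4 : ((FI F N).filter (fun J => Ideal.absNorm J = k)).card ≤
        Nat.card {J : Ideal (𝓞 F) // Ideal.absNorm J = k} := by
      rw [← Fintype.card_coe, ← Nat.card_eq_fintype_card]
      exact Nat.card_le_card_of_injective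
        (fun J : {x // x ∈ (FI F N).filter (fun J => Ideal.absNorm J = k)} =>
          (⟨J.1, (Finset.mem_filter.1 J.2).2⟩ : {J : Ideal (𝓞 F) // Ideal.absNorm J = k}))
        (fun a b hab => by
          apply Subtype.ext
          exact congrArg (fun J : {J : Ideal (𝓞 F) // Ideal.absNorm J = k} => J.1) hab)
    calc (((FI F N).filter (fun J => Ideal.absNorm J = k)).card : ℝ)
        ≤ (Nat.card {J : Ideal (𝓞 F) // Ideal.absNorm J = k} : ℝ) := by exact_mod_cast h4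
      _ ≤ C * (k : ℝ) ^ (1 / 2 : ℝ) := h k hk1
      _ ≤ C * (N : ℝ) ^ (1 / 2 : ℝ) := by
          apply mul_le_mul_of_nonneg_left _ hC.le
          exact Real.rpow_le_rpow (Nat.cast_nonneg _) (by exact_mod_cast hkN) (by norm_num)
  calc ∑ k ∈ Icc 1 N, (((FI F N).filter (fun J => Ideal.absNorm J = k)).card : ℝ)
      ≤ ∑ _k ∈ Icc 1 N, C * (N : ℝ) ^ (1 / 2 : ℝ) := Finset.sum_le_sum h3
    _ = C * ((N : ℝ) * (N : ℝ) ^ (1 / 2 : ℝ)) := by
        rw [Finset.sum_const, Nat.card_Icc, nsmul_eq_mul, Nat.add_sub_cancel]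
        ring

theorem one_add_log_pow_le (m : ℕ) : ∃ C : ℝ, 0 < C ∧ ∀ x : ℝ, 1 ≤ x → (1 + Real.log x) ^ m ≤ C * x ^ (1 / 2 : ℝ) := by
  refine ⟨(1 + 2 * (m + 1)) ^ m, by positivity, ?_⟩
  intro x hx
  have hx0 : 0 < x := by linarith
  have h1 : Real.log x ≤ 2 * (m + 1) * x ^ (1 / (2 * (m + 1)) : ℝ) := by
    have h2 := Real.log_le_rpow_div hx0.le (show (0 : ℝ) < 1 / (2 * (m + 1)) by positivity)
    calc Real.log x ≤ x ^ (1 / (2 * (m + 1)) : ℝ) / (1 / (2 * (m + 1))) := h2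
      _ = 2 * (m + 1) * x ^ (1 / (2 * (m + 1)) : ℝ) := by
          field_simp
  have h3 : (1 : ℝ) ≤ x ^ (1 / (2 * (m + 1)) : ℝ) := Real.one_le_rpow hx (by positivity)
  have h4 : 1 + Real.log x ≤ (1 + 2 * (m + 1)) * x ^ (1 / (2 * (m + 1)) : ℝ) := by
    linarith
  have h5 : 0 ≤ Real.log x := Real.log_nonneg hx
  calc (1 + Real.log x) ^ m ≤ ((1 + 2 * (m + 1)) * x ^ (1 / (2 * (m + 1)) : ℝ)) ^ m := by
        gcongr
    _ = (1 + 2 * (m + 1)) ^ m * x ^ (1 / (2 * (m + 1)) * m : ℝ) := by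
        rw [mul_pow, ← Real.rpow_natCast (x ^ (1 / (2 * (m + 1)) : ℝ)) m, ← Real.rpow_mul hx0.le]
    _ ≤ (1 + 2 * (m + 1)) ^ m * x ^ (1 / 2 : ℝ) := by
        apply mul_le_mul_of_nonneg_left _ (by positivity)
        apply Real.rpow_le_rpow_of_exponent_le hx
        rw [div_mul_eq_mul_div, div_le_div_iff₀ (by positivity) (by norm_num)]
        nlinarith

theorem t_TRIV : S_TRIV := by
  intro m
  obtain ⟨C1, hC1, h1⟩ := Pool.Agent.K1H33.RM.t_RM m (1 / 2) (by norm_num)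
  obtain ⟨C2, hC2, h2⟩ := one_add_log_pow_le m
  refine ⟨C2 * C1 * (2 ^ m + 2) ^ 2, by positivity, ?_⟩
  intro F _ _ hF
  have hD1 : (1 : ℝ) ≤ |(discr F : ℝ)| := by
    have := Int.one_le_abs (discr_ne_zero F)
    exact_mod_cast this
  obtain ⟨D, hD⟩ : ∃ D : ℝ, D = |(discr F : ℝ)| := ⟨_, rfl⟩
  rw [← hD] at hD1 ⊢
  have hs1 : 1 ≤ √D := Real.one_le_sqrt.2 hD1
  obtain ⟨N, hN⟩ : ∃ N : ℕ, N = ⌊(2 : ℝ) ^ m * √D⌋₊ + 1 := ⟨_, rfl⟩
  have hN1 : 2 ^ m * √D < N := by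
    rw [hN]
    push_cast
    exact Nat.lt_floor_add_one _
  have hN2 : (N : ℝ) ≤ (2 ^ m + 2) * √D := by
    rw [hN]
    push_cast
    have := Nat.floor_le (show 0 ≤ (2 : ℝ) ^ m * √D by positivity)
    nlinarith
  have hN3 : (1 : ℝ) ≤ N := by
    rw [hN]
    push_cast
    have : (0 : ℝ) ≤ (⌊(2 : ℝ) ^ m * √D⌋₊ : ℝ) := Nat.cast_nonneg _
    linarith
  have hcl := Pool.Agent.TH847.LG.class_le_n hF N (by rw [← hD]; exact hN1)
  have h4 : ∑ J ∈ FI F N, (1 + Real.log ((N : ℝ) / Ideal.absNorm J)) ^ m ≤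
      ∑ _J ∈ FI F N, C2 * (N : ℝ) ^ (1 / 2 : ℝ) := by
    apply Finset.sum_le_sum
    intro J hJ
    rw [mem_FI] at hJ
    have hJ1 : (1 : ℝ) ≤ Ideal.absNorm J := by exact_mod_cast absNorm_pos hJ.2
    have hJ2 : (Ideal.absNorm J : ℝ) ≤ N := by exact_mod_cast hJ.1
    have h5 : (1 : ℝ) ≤ (N : ℝ) / Ideal.absNorm J := by
      rw [le_div_iff₀ (by linarith)]
      linarith
    have h6 : (N : ℝ) / Ideal.absNorm J ≤ N := div_le_self (by linarith) hJ1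
    calc (1 + Real.log ((N : ℝ) / Ideal.absNorm J)) ^ m ≤ C2 * ((N : ℝ) / Ideal.absNorm J) ^ (1 / 2 : ℝ) := h2 _ h5
      _ ≤ C2 * (N : ℝ) ^ (1 / 2 : ℝ) := by
          apply mul_le_mul_of_nonneg_left _ hC2.le
          exact Real.rpow_le_rpow (by linarith) h6 (by norm_num)
  rw [Finset.sum_const, nsmul_eq_mul] at h4
  have h7 := card_FI_le hC1 (h1 F hF) N
  have h8 : (N : ℝ) ^ (1 / 2 : ℝ) * (N : ℝ) ^ (1 / 2 : ℝ) = N := by
    rw [← Real.rpow_add (by linarith)]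
    norm_num
  have h9 : (h3 F : ℝ) ≤ (Nat.card (ClassGroup (𝓞 F)) : ℝ) := by
    have : h3 F ≤ Nat.card (ClassGroup (𝓞 F)) :=
      Nat.card_le_card_of_injective (fun x : {c : ClassGroup (𝓞 F) // c ^ 3 = 1} => x.1)
        Subtype.val_injective
    exact_mod_cast this
  have h10 : 0 ≤ C2 * (N : ℝ) ^ (1 / 2 : ℝ) := by positivity
  calc (h3 F : ℝ) ≤ (Nat.card (ClassGroup (𝓞 F)) : ℝ) := h9
    _ ≤ ((FI F N).card : ℝ) * (C2 * (N : ℝ) ^ (1 / 2 : ℝ)) := hcl.trans h4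
    _ ≤ (C1 * ((N : ℝ) * (N : ℝ) ^ (1 / 2 : ℝ))) * (C2 * (N : ℝ) ^ (1 / 2 : ℝ)) :=
        mul_le_mul_of_nonneg_right h7 h10
    _ = C2 * C1 * ((N : ℝ) * ((N : ℝ) ^ (1 / 2 : ℝ) * (N : ℝ) ^ (1 / 2 : ℝ))) := by ring
    _ = C2 * C1 * (N : ℝ) ^ 2 := by rw [h8]; ring
    _ ≤ C2 * C1 * ((2 ^ m + 2) * √D) ^ 2 := by
        apply mul_le_mul_of_nonneg_left _ (by positivity)
        exact pow_le_pow_left₀ (by linarith) hN2 2
    _ = C2 * C1 * (2 ^ m + 2) ^ 2 * D := by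
        rw [mul_pow, Real.sq_sqrt (by linarith)]
        ring

end Pool.Agent.K1H79.SX
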